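import Pool.Agent.Q17.AM.Stm2
import Pool.Agent.Q17.TC.All

/-! Job CBC of project AM (helper17): the complex conjugate of a block. -/

set_option autoImplicit false

open scoped Classical

noncomputable section

namespace Pool.Agent.Q26.AM

open Pool.Agent.Helper884
open Pool.Agent.H254R3.IN Pool.Agent.Q17.WR Pool.Agent.Q17.AM

/-- the dual character -/
def iv {G : Type} [Group G] (χ : G → ℂ) : G → ℂ := fun g => χ g⁻¹

section

variable {G : Type} [Group G]

theorem iv_iv (χ : G → ℂ) : iv (iv χ) = χ := by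
  funext g
  unfold iv
  rw [inv_inv]

theorem iv_one (χ : G → ℂ) : iv χ 1 = χ 1 := by
  unfold iv
  rw [inv_one]

theorem irr_inv [Fintype G] {χ : G → ℂ} (h : IsIrr χ) : IsIrr (iv χ) := by
  have hB := irr_orth h h
  rw [if_pos rfl] at hB
  obtain ⟨V, _, _, _, ρ, hr, rfl⟩ := h
  have e : iv ρ.character = ρ.dual.character := by
    funext g
    rw [Representation.char_dual]
    rfl
  rw [e]
  refine Pool.Agent.Q17.TC.t_IRN Pool.Agent.Q17.TC.t_HOM G _ ρ.dual ?_
  rw [← e]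
  unfold IC.B
  rw [← hB]
  congr 1
  rw [← Equiv.sum_comp (Equiv.inv G)]
  refine Finset.sum_congr rfl fun g _ => ?_
  change ρ.character g⁻¹⁻¹ * ρ.character g⁻¹⁻¹⁻¹ = _
  rw [inv_inv]

theorem irr_iv [Fintype G] {χ : G → ℂ} : IsIrr (iv χ) ↔ IsIrr χ :=
  ⟨fun h => by rw [← iv_iv χ]; exact irr_inv h, irr_inv⟩

theorem isConj_inv_aux {x y : G} (h : IsConj x y) : IsConj x⁻¹ y⁻¹ := by
  obtain ⟨c, hc⟩ := isConj_iff.1 h
  refine isConj_iff.2 ⟨c, ?_⟩
  rw [← hc]
  group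

theorem isConj_inv {x y : G} : IsConj x⁻¹ y⁻¹ ↔ IsConj x y := by
  constructor
  · intro h
    have := isConj_inv_aux h
    rwa [inv_inv, inv_inv] at this
  · exact isConj_inv_aux

theorem omega_iv (χ : G → ℂ) (x : G) : omega (iv χ) x = omega χ x⁻¹ := by
  unfold omega
  rw [iv_one]
  have h1 : Nat.card {y : G // IsConj x y} = Nat.card {y : G // IsConj x⁻¹ y} := by
    refine Nat.card_congr ((Equiv.inv G).subtypeEquiv fun y => ?_)
    exact isConj_inv.symm
  rw [h1]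
  rfl

theorem mem_cj {B : Set (G → ℂ)} {χ : G → ℂ} : χ ∈ cj B ↔ iv χ ∈ B := Iff.rfl

theorem block_cj [Fintype G] {O : ValuationSubring ℂ} {B : Set (G → ℂ)} (h : IsBlock O B) :
    IsBlock O (cj B) := by
  obtain ⟨χ₀, h0, rfl⟩ := h
  refine ⟨iv χ₀, irr_inv h0, ?_⟩
  ext χ
  rw [mem_cj]
  change (IsIrr (iv χ) ∧ ∀ x : G, omega (iv χ) x - omega χ₀ x ∈ O.nonunits) ↔
    (IsIrr χ ∧ ∀ x : G, omega χ x - omega (iv χ₀) x ∈ O.nonunits)
  rw [irr_iv]
  refine and_congr_right fun _ => ⟨fun h x => ?_, fun h x => ?_⟩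
  · have := h x⁻¹
    rwa [omega_iv, inv_inv, ← omega_iv χ₀] at this
  · have := h x⁻¹
    rwa [omega_iv χ₀, inv_inv, ← omega_iv χ] at this

theorem coeff_cj (B : Set (G → ℂ)) (x : G) : blockCoeff (cj B) x = blockCoeff B x⁻¹ := by
  unfold blockCoeff
  congr 1
  have h1 : cj B = iv '' B := by
    ext χ
    constructor
    · intro h
      exact ⟨iv χ, h, iv_iv χ⟩
    · rintro ⟨χ', h, rfl⟩
      rw [mem_cj, iv_iv]
      exact h
  have hinj : Set.InjOn (iv : (G → ℂ) → (G → ℂ)) B := fun a _ b _ h => by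
    rw [← iv_iv a, h, iv_iv]
  rw [h1, finsum_mem_image hinj]
  refine finsum_mem_congr rfl fun χ _ => ?_
  rw [iv_one]
  rfl

theorem centralizer_inv (x : G) :
    Subgroup.centralizer ({x⁻¹} : Set G) = Subgroup.centralizer ({x} : Set G) := by
  ext y
  rw [Subgroup.mem_centralizer_singleton_iff, Subgroup.mem_centralizer_singleton_iff]
  constructor
  · intro h
    have h1 : Commute y x⁻¹ := h
    have := h1.inv_right
    rw [inv_inv] at this
    exact this
  · intro h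
    have h1 : Commute y x := h
    exact h1.inv_right

theorem defect_cj {p : ℕ} {O : ValuationSubring ℂ} {B : Set (G → ℂ)} {D : Subgroup G}
    (h : IsDefectGroup p O B D) : IsDefectGroup p O (cj B) D := by
  obtain ⟨x, h1, h2, h3⟩ := h
  refine ⟨x⁻¹, ?_, ?_, ?_⟩
  · rw [centralizer_inv]
    exact h1
  · intro χ hχ
    rw [← omega_iv]
    exact h2 _ hχ
  · rw [coeff_cj, inv_inv]
    exact h3

end

theorem t_CBC : S_CBC := by
  intro G _ _ p _ O hp B hB
  refine ⟨block_cj hB, fun D hD => ⟨defect_cj hD, fun b hb => ?_⟩⟩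
  obtain ⟨h1, h2, h3⟩ := hb
  have : Fintype (Pool.Agent.Q17.AM.NN D) := Fintype.ofFinite _
  refine ⟨block_cj h1, defect_cj h2, ?_⟩
  intro χ hχ θ hθ x
  have h4 := h3 _ hχ _ hθ x⁻¹
  have h5 : omega (fun g => χ g⁻¹) x⁻¹ = omega χ x := by
    have := omega_iv χ x⁻¹
    rw [inv_inv] at this
    exact this
  rw [h5] at h4
  have h6 : ∑ᶠ y : {y : Subgroup.normalizer (D : Set G) // IsConj x (y : G)}, θ y / θ 1 =
      ∑ᶠ y : {y : Subgroup.normalizer (D : Set G) // IsConj x⁻¹ (y : G)},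
        (fun g => θ g⁻¹) (y : Pool.Agent.Q17.AM.NN D) / (fun g => θ g⁻¹) (1 : Pool.Agent.Q17.AM.NN D) := by
    let e : {y : Subgroup.normalizer (D : Set G) // IsConj x⁻¹ (y : G)} ≃
        {y : Subgroup.normalizer (D : Set G) // IsConj x (y : G)} :=
      (Equiv.inv (Pool.Agent.Q17.AM.NN D)).subtypeEquiv fun y => by
        change IsConj x⁻¹ (y : G) ↔ IsConj x (y : G)⁻¹
        rw [← isConj_inv, inv_inv]
    rw [← finsum_comp_equiv e]
    refine finsum_congr fun y => ?_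
    change θ (y.1)⁻¹ / θ 1 = θ (y.1)⁻¹ / θ 1⁻¹
    rw [inv_one]
  rw [h6]
  exact h4

end Pool.Agent.Q26.AM
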