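import Pool.Agent.Q17.AM.Stm2

/-! Job DEG of project AM (helper17): the degrees modulo `p`, up to sign. -/

set_option autoImplicit false

open scoped Classical

noncomputable section

namespace Pool.Agent.Q26.AM

open Pool.Agent.Helper884
open Pool.Agent.H254R3.IN Pool.Agent.Q17.WR Pool.Agent.Q17.AM

section

variable {p : ℕ} [Fact p.Prime]

theorem cast_ne {k : ℕ} (hk : ¬ p ∣ k) : (k : ZMod p) ≠ 0 := by
  rwa [Ne, ZMod.natCast_eq_zero_iff]

theorem cls_mul {m n : ℕ} (hm : ¬ p ∣ m) (hn : ¬ p ∣ n) :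
    cls p (m * n) = cls p m * cls p n := by
  have hmn : ¬ p ∣ m * n := fun h' => ((Fact.out : p.Prime).dvd_mul.1 h').elim hm hn
  unfold cls
  rw [dif_pos (cast_ne hm), dif_pos (cast_ne hn), dif_pos (cast_ne hmn), ← QuotientGroup.mk_mul]
  congr 1
  apply Units.ext
  rw [Units.val_mul, Units.val_mk0, Units.val_mk0, Units.val_mk0, Nat.cast_mul]

theorem cls_one : cls p 1 = 1 := by
  have h1 : ¬ p ∣ 1 := fun h => (Fact.out : p.Prime).one_lt.ne' (Nat.dvd_one.1 h)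
  have h2 := cls_mul h1 h1
  rw [mul_one] at h2
  exact (mul_eq_left.1 h2.symm)

theorem cls_prod {ι : Type} (s : Finset ι) (n : ι → ℕ) (h : ∀ i ∈ s, ¬ p ∣ n i) :
    cls p (∏ i ∈ s, n i) = ∏ i ∈ s, cls p (n i) ∧ ¬ p ∣ ∏ i ∈ s, n i := by
  induction s using Finset.induction_on with
  | empty =>
    refine ⟨by rw [Finset.prod_empty, Finset.prod_empty, cls_one], ?_⟩
    rw [Finset.prod_empty]
    exact fun h => (Fact.out : p.Prime).one_lt.ne' (Nat.dvd_one.1 h)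
  | insert a s ha ih =>
    obtain ⟨h1, h2⟩ := ih fun i hi => h i (Finset.mem_insert_of_mem hi)
    have h3 := h a (Finset.mem_insert_self a s)
    rw [Finset.prod_insert ha, Finset.prod_insert ha, cls_mul h3 h2, h1]
    exact ⟨rfl, fun h' => ((Fact.out : p.Prime).dvd_mul.1 h').elim h3 h2⟩

theorem dcl_eq {G : Type} [Group G] {χ : G → ℂ} {n : ℕ} (h : (n : ℂ) = χ 1) :
    dcl p χ = cls p n := by
  unfold dcl
  have h1 : ∃ n : ℕ, (n : ℂ) = χ 1 := ⟨n, h⟩
  rw [dif_pos h1]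
  have h2 := h1.choose_spec
  congr 1
  exact_mod_cast h2.trans h.symm

theorem DG_eq {G : Type} [Group G] {X : Set (G → ℂ)} {S : Finset (G → ℂ)}
    (h : ∀ χ, χ ∈ S ↔ χ ∈ X) :
    DG p X = ∑ χ ∈ S, MonoidAlgebra.of ℤ (Cp p) (dcl p χ) := by
  unfold DG
  have e : X = (S : Set (G → ℂ)) := Set.ext fun χ => (h χ).symm
  subst e
  rw [finsum_set_coe_eq_finsum_mem (s := (S : Set (G → ℂ)))
    (f := fun χ : G → ℂ => MonoidAlgebra.of ℤ (Cp p) (dcl p χ))]
  exact finsum_mem_coe_finset _ _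

end

section

variable {G : Type} [Group G] {r : ℕ} [Fact r.Prime]

theorem card_Cy : Fintype.card (Cy r) = r := by
  rw [Fintype.card_multiplicative, ZMod.card]

theorem nch_one (f : Cy r → G → ℂ) : nch f 1 = r * ∏ ω, f ω 1 := by
  unfold nch
  rw [if_pos SemidirectProduct.one_right]
  have h : ∀ a : Cy r, prf (fun ω => f (a * ω)) (1 : Wc G r).left = ∏ ω, f ω 1 := by
    intro a
    exact Fintype.prod_equiv (Equiv.mulLeft a) _ _ fun ω => rfl
  rw [Finset.sum_congr rfl fun a _ => h a, Finset.sum_const, Finset.card_univ, card_Cy,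
    nsmul_eq_mul]

theorem cch_one (θ : G → ℂ) (l : Cy r →* ℂˣ) : cch θ l 1 = θ 1 ^ r := by
  unfold cch
  rw [if_pos SemidirectProduct.one_right]
  change ∏ ω : Cy r, θ 1 = θ 1 ^ r
  rw [Finset.prod_const, Finset.card_univ, card_Cy]

/-- shifting a family -/
theorem nch_shift (f : Cy r → G → ℂ) (a : Cy r) : nch (fun ω => f (a * ω)) = nch f := by
  funext x
  unfold nch
  split_ifs
  · refine Fintype.sum_equiv (Equiv.mulLeft a) _ _ fun b => ?_
    change prf (fun ω => f (a * (b * ω))) x.left = prf (fun ω => f (a * b * ω)) x.left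
    congr 1
    funext ω
    rw [mul_assoc]
  · rfl

omit [Group G] in
theorem shift_inj {f : Cy r → G → ℂ} (hf : Ncn f) {a b : Cy r}
    (h : (fun ω => f (a * ω)) = fun ω => f (b * ω)) : a = b := by
  by_contra hne
  have hc : a * b⁻¹ ≠ 1 := fun h1 => hne (mul_inv_eq_one.1 h1)
  have h1 : ∀ ω, f (a * b⁻¹ * ω) = f ω := by
    intro ω
    have h2 := congrFun h (b⁻¹ * ω)
    beta_reduce at h2
    rw [mul_inv_cancel_left, ← mul_assoc] at h2
    exact h2
  have h2 : ∀ k : ℕ, ∀ ω, f ((a * b⁻¹) ^ k * ω) = f ω := by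
    intro k
    induction k with
    | zero => intro ω; rw [pow_zero, one_mul]
    | succ k ih => intro ω; rw [pow_succ, mul_assoc, ih, h1]
  obtain ⟨ω, ω', hω⟩ := hf
  apply hω
  have hcard : Nat.card (Cy r) = r := by rw [Nat.card_eq_fintype_card, card_Cy]
  have hmem : ω' * ω⁻¹ ∈ Submonoid.powers (a * b⁻¹) := by
    have := mem_powers_of_prime_card (G := Cy r) (p := r) hcard (g := a * b⁻¹) (g' := ω' * ω⁻¹) hc
    exact this
  obtain ⟨k, hk⟩ := hmem
  have h3 := h2 k ω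
  have hk' : (a * b⁻¹) ^ k = ω' * ω⁻¹ := hk
  rw [hk', inv_mul_cancel_right] at h3
  exact h3.symm

end

section

variable {G : Type} [Group G] [Fintype G] {p r : ℕ} [Fact p.Prime] [Fact r.Prime]

theorem LX_eq (h : S_CLS) (hpr : p ≠ r) : LX (r := r) (Ip p G) = Ip p (Wc G r) := by
  obtain ⟨c1, c2, c3, -, -, -⟩ := h G r
  have hp : p.Prime := Fact.out
  have hr : r.Prime := Fact.out
  have hpr' : ¬ p ∣ r := fun h => hpr ((Nat.prime_dvd_prime_iff_eq hp hr).1 h)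
  ext χ
  constructor
  · rintro (⟨f, hf, hn, rfl⟩ | ⟨θ, hθ, l, rfl⟩)
    · refine ⟨c1 f (fun ω => (hf ω).1) hn, ?_⟩
      choose n hn1 hn2 using fun ω => (hf ω).2
      refine ⟨r * ∏ ω, n ω, ?_, ?_⟩
      · rw [nch_one, Nat.cast_mul, Nat.cast_prod]
        congr 1
        exact Finset.prod_congr rfl fun ω _ => hn1 ω
      · intro hd
        rcases hp.dvd_mul.1 hd with h1 | h1
        · exact hpr' h1
        · exact (cls_prod Finset.univ n fun ω _ => hn2 ω).2 h1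
    · refine ⟨c2 θ hθ.1 l, ?_⟩
      obtain ⟨n, hn1, hn2⟩ := hθ.2
      refine ⟨n ^ r, ?_, fun hd => hn2 (hp.dvd_of_dvd_pow hd)⟩
      rw [cch_one, ← hn1, Nat.cast_pow]
  · rintro ⟨h1, n, h2, h3⟩
    rcases c3 χ h1 with ⟨f, hf, hn, rfl⟩ | ⟨θ, hθ, l, rfl⟩
    · left
      refine ⟨f, fun ω => ⟨hf ω, ?_⟩, hn, rfl⟩
      choose m hm0 hm using fun ω => (hf ω).deg
      refine ⟨m ω, hm ω, fun hd => h3 ?_⟩
      have h4 : n = r * ∏ ω, m ω := by
        rw [nch_one] at h2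
        have h5 : (n : ℂ) = ((r * ∏ ω, m ω : ℕ) : ℂ) := by
          rw [h2, Nat.cast_mul, Nat.cast_prod]
          congr 1
          exact Finset.prod_congr rfl fun ω _ => (hm ω).symm
        exact_mod_cast h5
      rw [h4]
      exact (hd.trans (Finset.dvd_prod_of_mem m (Finset.mem_univ ω))).mul_left r
    · right
      refine ⟨θ, ⟨hθ, ?_⟩, l, rfl⟩
      obtain ⟨m, hm0, hm⟩ := IsIrr.deg hθ
      refine ⟨m, hm, fun hd => h3 ?_⟩
      have h4 : n = m ^ r := by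
        rw [cch_one, ← hm] at h2
        exact_mod_cast h2
      rw [h4]
      exact dvd_pow hd hr.ne_zero

/-- the characters as a finite set -/
def XF (p : ℕ) (G : Type) [Group G] [Fintype G] : Finset (G → ℂ) :=
  (IC.Irr G).filter (fun χ => χ ∈ Ip p G)

omit [Fact p.Prime] in
theorem mem_XF {χ : G → ℂ} : χ ∈ XF p G ↔ χ ∈ Ip p G := by
  unfold XF
  rw [Finset.mem_filter]
  exact ⟨fun h => h.2, fun h => ⟨IC.mem_Irr.2 h.1, h⟩⟩

theorem t_DEG : S_CLS → S_DEG := by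
  intro hcls G _ _ p r _ _ hpr
  refine ⟨LX_eq hcls hpr, ?_⟩
  rw [← LX_eq hcls hpr]
  obtain ⟨c1, c2, c3, c4, c5, c6⟩ := hcls G r
  have hp : p.Prime := Fact.out
  have hr : r.Prime := Fact.out
  have hpr' : ¬ p ∣ r := fun h => hpr ((Nat.prime_dvd_prime_iff_eq hp hr).1 h)
  have hcardH : Nat.card (Cy r →* ℂˣ) = r := by
    have h1 := CommGroup.card_monoidHom_of_hasEnoughRootsOfUnity (Cy r) ℂ
    rw [h1, Nat.card_eq_fintype_card, card_Cy]
  have hfinH : Finite (Cy r →* ℂˣ) := Nat.finite_of_card_ne_zero (by rw [hcardH]; exact hr.ne_zero)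
  have iH : Fintype (Cy r →* ℂˣ) := Fintype.ofFinite _
  -- the finite sets
  set NF : Finset (Cy r → G → ℂ) :=
    (Fintype.piFinset (fun _ => XF p G)).filter Ncn with hNF
  set CF : Finset ((G → ℂ) × (Cy r →* ℂˣ)) := XF p G ×ˢ Finset.univ with hCF
  have memNF : ∀ f, f ∈ NF ↔ (∀ ω, f ω ∈ Ip p G) ∧ Ncn f := by
    intro f
    rw [hNF, Finset.mem_filter, Fintype.mem_piFinset]
    simp only [mem_XF]
  have memCF : ∀ x, x ∈ CF ↔ x.1 ∈ Ip p G := by
    intro x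
    rw [hCF, Finset.mem_product, mem_XF]
    exact ⟨fun h => h.1, fun h => ⟨h, Finset.mem_univ _⟩⟩
  have hmem : ∀ χ, χ ∈ NF.image nch ∪ CF.image (fun x => cch x.1 x.2) ↔
      χ ∈ LX (r := r) (Ip p G) := by
    intro χ
    rw [Finset.mem_union, Finset.mem_image, Finset.mem_image]
    constructor
    · rintro (⟨f, hf, rfl⟩ | ⟨x, hx, rfl⟩)
      · obtain ⟨h1, h2⟩ := (memNF f).1 hf
        exact Or.inl ⟨f, h1, h2, rfl⟩
      · exact Or.inr ⟨x.1, (memCF x).1 hx, x.2, rfl⟩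
    · rintro (⟨f, h1, h2, rfl⟩ | ⟨θ, h1, l, rfl⟩)
      · exact Or.inl ⟨f, (memNF f).2 ⟨h1, h2⟩, rfl⟩
      · exact Or.inr ⟨(θ, l), (memCF _).2 h1, rfl⟩
  have hdisj : Disjoint (NF.image nch) (CF.image (fun x => cch x.1 x.2)) := by
    rw [Finset.disjoint_left]
    intro χ h1 h2
    obtain ⟨f, hf, rfl⟩ := Finset.mem_image.1 h1
    obtain ⟨x, hx, e⟩ := Finset.mem_image.1 h2
    obtain ⟨h3, h4⟩ := (memNF f).1 hf
    exact c6 f x.1 x.2 (fun ω => (h3 ω).1) h4 ((memCF x).1 hx).1 e.symm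
  have hD : DG p (Ip p G) = ∑ χ ∈ XF p G, MonoidAlgebra.of ℤ (Cp p) (dcl p χ) :=
    DG_eq fun χ => mem_XF
  have hY : DG p (LX (r := r) (Ip p G)) =
      ∑ χ ∈ NF.image nch, MonoidAlgebra.of ℤ (Cp p) (dcl p χ) +
      ∑ χ ∈ CF.image (fun x => cch x.1 x.2), MonoidAlgebra.of ℤ (Cp p) (dcl p χ) := by
    rw [DG_eq hmem, Finset.sum_union hdisj]
  -- the power map
  have hpsi : MonoidAlgebra.mapDomain (fun c : Cp p => c ^ r) (DG p (Ip p G)) =
      ∑ χ ∈ XF p G, MonoidAlgebra.of ℤ (Cp p) (dcl p χ ^ r) := by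
    rw [hD]
    have h1 : ∀ x : MonoidAlgebra ℤ (Cp p), MonoidAlgebra.mapDomain (fun c : Cp p => c ^ r) x =
        MonoidAlgebra.mapDomainLinearMap ℤ ℤ (fun c : Cp p => c ^ r) x := fun _ => rfl
    rw [h1, map_sum]
    refine Finset.sum_congr rfl fun χ _ => ?_
    rw [← h1, MonoidAlgebra.of_apply, MonoidAlgebra.mapDomain_single, MonoidAlgebra.of_apply]
  -- degrees
  have hdN : ∀ f ∈ NF, MonoidAlgebra.of ℤ (Cp p) (dcl p (nch f)) =
      MonoidAlgebra.of ℤ (Cp p) (cls p r) * ∏ ω, MonoidAlgebra.of ℤ (Cp p) (dcl p (f ω)) := by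
    intro f hf
    obtain ⟨h3, h4⟩ := (memNF f).1 hf
    choose n hn1 hn2 using fun ω => (h3 ω).2
    have h5 : ((r * ∏ ω, n ω : ℕ) : ℂ) = nch f 1 := by
      rw [nch_one, Nat.cast_mul, Nat.cast_prod]
      congr 1
      exact Finset.prod_congr rfl fun ω _ => hn1 ω
    obtain ⟨h6, h7⟩ := cls_prod Finset.univ n fun ω _ => hn2 ω
    rw [dcl_eq h5, cls_mul hpr' h7, h6, map_mul, map_prod]
    congr 1
    refine Finset.prod_congr rfl fun ω _ => ?_
    rw [dcl_eq (hn1 ω)]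
  have hdC : ∀ x ∈ CF, MonoidAlgebra.of ℤ (Cp p) (dcl p (cch x.1 x.2)) =
      MonoidAlgebra.of ℤ (Cp p) (dcl p x.1 ^ r) := by
    intro x hx
    obtain ⟨n, hn1, hn2⟩ := ((memCF x).1 hx).2
    have h5 : ((∏ _ω : Fin r, n : ℕ) : ℂ) = cch x.1 x.2 1 := by
      rw [cch_one, ← hn1, Finset.prod_const, Finset.card_univ, Fintype.card_fin, Nat.cast_pow]
    rw [dcl_eq h5, (cls_prod Finset.univ (fun _ : Fin r => n) fun _ _ => hn2).1, Finset.prod_const,
      Finset.card_univ, Fintype.card_fin, dcl_eq hn1]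
  -- the two sums
  have hfib : ∀ χ ∈ NF.image nch, (NF.filter (fun f => nch f = χ)).card = r := by
    intro χ hχ
    obtain ⟨f, hf, rfl⟩ := Finset.mem_image.1 hχ
    obtain ⟨h3, h4⟩ := (memNF f).1 hf
    have h5 : NF.filter (fun f' => nch f' = nch f) =
        (Finset.univ : Finset (Cy r)).image (fun a => fun ω => f (a * ω)) := by
      ext f'
      rw [Finset.mem_filter, Finset.mem_image]
      constructor
      · rintro ⟨h6, h7⟩
        obtain ⟨h8, h9⟩ := (memNF f').1 h6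
        obtain ⟨a, ha⟩ := c4 f f' (fun ω => (h3 ω).1) (fun ω => (h8 ω).1) h4 h7.symm
        exact ⟨a, Finset.mem_univ _, ha.symm⟩
      · rintro ⟨a, -, rfl⟩
        refine ⟨(memNF _).2 ⟨fun ω => h3 _, ?_⟩, nch_shift f a⟩
        obtain ⟨ω, ω', h6⟩ := h4
        refine ⟨a⁻¹ * ω, a⁻¹ * ω', ?_⟩
        change f (a * (a⁻¹ * ω)) ≠ f (a * (a⁻¹ * ω'))
        rw [mul_inv_cancel_left, mul_inv_cancel_left]
        exact h6
    rw [h5, Finset.card_image_of_injective _ (fun a b hab => shift_inj h4 hab), Finset.card_univ,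
      card_Cy]
  have hN : (r : ℤ) • ∑ χ ∈ NF.image nch, MonoidAlgebra.of ℤ (Cp p) (dcl p χ) =
      ∑ f ∈ NF, MonoidAlgebra.of ℤ (Cp p) (dcl p (nch f)) := by
    rw [Finset.sum_comp (fun χ => MonoidAlgebra.of ℤ (Cp p) (dcl p χ)) nch, Finset.smul_sum]
    refine Finset.sum_congr rfl fun χ hχ => ?_
    rw [hfib χ hχ, natCast_zsmul]
  have hC : ∑ χ ∈ CF.image (fun x => cch x.1 x.2), MonoidAlgebra.of ℤ (Cp p) (dcl p χ) =
      (r : ℤ) • MonoidAlgebra.mapDomain (fun c : Cp p => c ^ r) (DG p (Ip p G)) := by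
    rw [Finset.sum_image (fun x hx x' hx' e => by
      obtain ⟨h1, h2⟩ := c5 x.1 x'.1 x.2 x'.2 ((memCF x).1 hx).1 ((memCF x').1 hx').1 e
      exact Prod.ext h1 h2), Finset.sum_congr rfl hdC, hCF, Finset.sum_product, hpsi,
      Finset.smul_sum]
    refine Finset.sum_congr rfl fun χ _ => ?_
    simp only []
    rw [Finset.sum_const, Finset.card_univ, ← Nat.card_eq_fintype_card, hcardH, natCast_zsmul]
  have hpow : DG p (Ip p G) ^ r = ∑ f ∈ NF, ∏ ω, MonoidAlgebra.of ℤ (Cp p) (dcl p (f ω)) +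
      MonoidAlgebra.mapDomain (fun c : Cp p => c ^ r) (DG p (Ip p G)) := by
    have h1 : DG p (Ip p G) ^ r = ∏ _ω : Cy r, ∑ χ ∈ XF p G, MonoidAlgebra.of ℤ (Cp p) (dcl p χ) := by
      rw [Finset.prod_const, Finset.card_univ, card_Cy, hD]
    rw [h1, Finset.prod_univ_sum (fun _ : Cy r => XF p G)
      (fun _ χ => MonoidAlgebra.of ℤ (Cp p) (dcl p χ)), ← Finset.sum_filter_add_sum_filter_not _ Ncn]
    congr 1
    rw [hpsi]
    have h2 : (Fintype.piFinset (fun _ : Cy r => XF p G)).filter (fun f => ¬ Ncn f) =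
        (XF p G).image (fun χ => fun _ => χ) := by
      ext f
      rw [Finset.mem_filter, Fintype.mem_piFinset, Finset.mem_image]
      constructor
      · rintro ⟨h3, h4⟩
        refine ⟨f 1, h3 1, ?_⟩
        funext ω
        by_contra h5
        exact h4 ⟨1, ω, h5⟩
      · rintro ⟨χ, hχ, rfl⟩
        refine ⟨fun _ => hχ, ?_⟩
        rintro ⟨ω, ω', h⟩
        exact h rfl
    rw [h2, Finset.sum_image (fun χ _ χ' _ h => congrFun h 1)]
    refine Finset.sum_congr rfl fun χ _ => ?_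
    rw [Finset.prod_const, Finset.card_univ, card_Cy, map_pow]
  rw [hY, smul_add, hN, hC, Finset.sum_congr rfl hdN, ← Finset.mul_sum, hpow, add_sub_cancel_right,
    smul_smul, sq]

end

end Pool.Agent.Q26.AM
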